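import Mathlib
import Pool.Agent.Results.MP_a75ade_an.NoMontessusSets

/-!
# Pointwise divergence of two-variable rational interpolants, for all interpolation sets

Let `ν ≥ 2`, `G = 1 - z₁^(ν-1) z₂` and `f = 1/G`. Whatever interpolation sets `S_n` for type `(n,ν)` are
chosen, there are corresponding approximants `P_n/Q_n` to `f` such that for all `t ≥ 1` and EVERY point
`z` with `|z₁^(ν-1) z₂| ≥ 1` and `G(z) ≠ 0`

  `|P_n(z)/Q_n(z) - f(z)| ≥ |w|^t / (1 + |w|)`, `n = ν t`, `w = z₁^(ν-1) z₂`, and `Q_n(z) ≠ 0`.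

So `P_n/Q_n` converges to `f` at no point of `{|w| ≥ 1}`, and at every point of the open set `{|w| > 1}`
the errors tend to infinity exponentially along `n = ν t`; in particular there is no convergence in
measure or in capacity on any set of positive measure inside `{|w| > 1}`. This contains the negative
answer to the question (no locally uniform convergence on `ℂ² ∖ {G = 0}`), for every `ν ≥ 2`.
-/

set_option autoImplicit false

open Filter Topology Pool.Agent.Results.MP_a75ade_an.NoMontessusSets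

namespace Pool.Agent.Results.MP_a75ade_an.PointwiseDivergence

noncomputable section

lemma eval_mon (z : Fin 2 → ℂ) (j k : ℕ) :
    MvPolynomial.eval z (MvPolynomial.monomial (idx j k) 1) = z 0 ^ j * z 1 ^ k := by
  rw [MvPolynomial.eval_monomial, one_mul, Finsupp.prod_fintype _ _ (fun _ => pow_zero _),
    Fin.prod_univ_two, idx_zero, idx_one]

lemma eval_num (z : Fin 2 → ℂ) (p a b I : ℕ) :
    MvPolynomial.eval z (num p a b I)
      = z 0 ^ a * z 1 ^ b * ∑ i ∈ Finset.range (I + 1), (z 0 ^ p * z 1) ^ i := by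
  rw [num, map_sum, Finset.mul_sum]
  apply Finset.sum_congr rfl
  intro i _
  rw [eval_mon, mul_pow, ← pow_mul, pow_add, pow_add]
  ring

/-- For `n = ν t`, `t ≥ 1`, every interpolation set admits an approximant which is a partial sum of the
geometric series of length at least `t`. -/
lemma partial_sum_approximant (p t : ℕ) (hp : 1 ≤ p) (ht : 1 ≤ t) (S : Finset (ℕ × ℕ))
    (hS : IsInterpolationSet ((p + 1) * t) (p + 1) S) :
    ∃ (P Q : MvPolynomial (Fin 2) ℂ) (I : ℕ), IsApproximant ((p + 1) * t) (p + 1) S (fser p) P Q ∧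
      t ≤ I + 1 ∧ ∀ z : Fin 2 → ℂ, z 0 ≠ 0 → z 1 ≠ 0 → MvPolynomial.eval z Q ≠ 0 ∧
        MvPolynomial.eval z P / MvPolynomial.eval z Q =
          ∑ i ∈ Finset.range (I + 1), (z 0 ^ p * z 1) ^ i := by
  classical
  obtain ⟨a, b, hab, hmiss⟩ := missed_class p t hp ht S hS
  set n := (p + 1) * t with hn
  have hnab : a + b ≤ n := by
    rw [hn]
    nlinarith
  set I := (n - (a + b)) / (p + 1) with hI
  have hI1 : a + b + (p + 1) * I ≤ n := by
    have := Nat.mul_div_le (n - (a + b)) (p + 1)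
    rw [← hI] at this
    omega
  have hI2 : ∀ i, a + b + (p + 1) * i ≤ n → i ≤ I := by
    intro i hi
    rw [hI, Nat.le_div_iff_mul_le (by omega), mul_comm]
    omega
  refine ⟨num p a b I, MvPolynomial.monomial (idx a b) 1, I,
    ⟨totalDegree_num p a b I n hI1, ?_, ?_, ?_⟩, ?_, ?_⟩
  · rw [Ne, MvPolynomial.monomial_eq_zero]
    exact one_ne_zero
  · rw [MvPolynomial.totalDegree_monomial _ one_ne_zero, idx_sum]
    exact hab
  · intro j k hjk
    rw [map_sub, MvPolynomial.coe_monomial, MvPowerSeries.coeff_monomial_mul, MvPolynomial.coeff_coe,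
      coeff_num, one_mul, idx_sub, coeff_fser, idx_zero, idx_one]
    simp only [idx_le]
    by_cases h1 : a ≤ j ∧ b ≤ k
    · rw [if_pos h1]
      obtain ⟨j', rfl⟩ := Nat.exists_eq_add_of_le h1.1
      obtain ⟨i, rfl⟩ := Nat.exists_eq_add_of_le h1.2
      rw [Nat.add_sub_cancel_left, Nat.add_sub_cancel_left]
      by_cases h2 : j' = p * i
      · subst h2
        rw [if_pos rfl]
        have h3 : i ≤ I := by
          apply hI2
          by_contra h4
          push Not at h4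
          have h5 : n < a + p * i + (b + i) := by
            have : a + p * i + (b + i) = a + b + (p + 1) * i := by ring
            omega
          apply hmiss _ _ hjk h5
          push_cast
          ring
        rw [if_pos ⟨i, h3, rfl, rfl⟩, sub_self]
      · rw [if_neg h2, if_neg, sub_self]
        rintro ⟨i', _, h5, h6⟩
        apply h2
        have h7 : i = i' := by omega
        rw [h7]
        omega
    · rw [if_neg h1, if_neg, sub_self]
      rintro ⟨i', _, h5, h6⟩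
      apply h1
      constructor
      · rw [h5]
        exact Nat.le_add_right _ _
      · omega
  · have h3 : t - 1 ≤ I := by
      apply hI2
      obtain ⟨s, rfl⟩ := Nat.exists_eq_add_of_le ht
      rw [Nat.add_sub_cancel_left, hn]
      have : (p + 1) * (1 + s) = (p + 1) + (p + 1) * s := by ring
      omega
    omega
  · intro z h0 h1
    have hne : z 0 ^ a * z 1 ^ b ≠ 0 := mul_ne_zero (pow_ne_zero _ h0) (pow_ne_zero _ h1)
    rw [eval_mon, eval_num]
    exact ⟨hne, by rw [mul_div_cancel_left₀ _ hne]⟩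

/-- The error of a partial sum of the geometric series outside the unit disc. -/
lemma error_le (w : ℂ) (hw : 1 ≤ ‖w‖) (hw1 : 1 - w ≠ 0) (t I : ℕ) (ht : t ≤ I + 1) :
    ‖w‖ ^ t / (1 + ‖w‖) ≤ ‖∑ i ∈ Finset.range (I + 1), w ^ i - 1 / (1 - w)‖ := by
  have hw2 : w ≠ 1 := fun h => hw1 (by rw [h, sub_self])
  have h1 : ∑ i ∈ Finset.range (I + 1), w ^ i - 1 / (1 - w) = -(w ^ (I + 1) / (1 - w)) := by
    rw [geom_sum_eq hw2, ← neg_sub 1 w, ← neg_sub 1 (w ^ (I + 1)), neg_div_neg_eq, div_sub_div_same]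
    rw [← neg_div]
    congr 1
    ring
  rw [h1, norm_neg, norm_div, norm_pow]
  have h2 : ‖1 - w‖ ≤ 1 + ‖w‖ := (norm_sub_le _ _).trans (by rw [norm_one])
  have h3 : 0 < ‖1 - w‖ := norm_pos_iff.mpr hw1
  have h4 : ‖w‖ ^ t ≤ ‖w‖ ^ (I + 1) := pow_le_pow_right₀ hw ht
  exact div_le_div₀ (by positivity) h4 h3 h2

/-- **Pointwise divergence for all interpolation sets.** -/
theorem result (ν : ℕ) (hν : 2 ≤ ν) :
    ∃ (F : (Fin 2 → ℂ) → ℂ) (G : MvPolynomial (Fin 2) ℂ) (f : MvPowerSeries (Fin 2) ℂ),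
      (∀ z, F z = 1) ∧ Differentiable ℂ F ∧
      G = 1 - MvPolynomial.X 0 ^ (ν - 1) * MvPolynomial.X 1 ∧
      G.totalDegree = ν ∧ MvPolynomial.eval 0 G ≠ 0 ∧
      IsTaylorSeriesAtZero f (fun z => F z / MvPolynomial.eval z G) ∧
      ∀ S : ℕ → Finset (ℕ × ℕ), (∀ n, IsInterpolationSet n ν (S n)) →
        ∃ P Q : ℕ → MvPolynomial (Fin 2) ℂ,
          (∀ n, IsApproximant n ν (S n) f (P n) (Q n)) ∧
          ¬ ConvergesOn P Q (fun z => F z / MvPolynomial.eval z G)
            {z | MvPolynomial.eval z G ≠ 0} ∧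
          ∀ z : Fin 2 → ℂ, 1 ≤ ‖z 0 ^ (ν - 1) * z 1‖ → MvPolynomial.eval z G ≠ 0 →
            (∀ t : ℕ, 1 ≤ t → MvPolynomial.eval z (Q (ν * t)) ≠ 0 ∧
              ‖z 0 ^ (ν - 1) * z 1‖ ^ t / (1 + ‖z 0 ^ (ν - 1) * z 1‖) ≤
                ‖MvPolynomial.eval z (P (ν * t)) / MvPolynomial.eval z (Q (ν * t)) -
                  F z / MvPolynomial.eval z G‖) ∧
            ¬ Tendsto (fun n => MvPolynomial.eval z (P n) / MvPolynomial.eval z (Q n)) atTop
              (𝓝 (F z / MvPolynomial.eval z G)) ∧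
            (1 < ‖z 0 ^ (ν - 1) * z 1‖ → Tendsto (fun t : ℕ =>
              ‖MvPolynomial.eval z (P (ν * t)) / MvPolynomial.eval z (Q (ν * t))‖) atTop atTop) := by
  classical
  obtain ⟨p, rfl⟩ : ∃ p, ν = p + 1 := ⟨ν - 1, by omega⟩
  have hp : 1 ≤ p := by omega
  rw [Nat.add_sub_cancel]
  refine ⟨fun _ => 1, den p, fser p, fun _ => rfl, differentiable_const _, den_eq p,
    totalDegree_den p, ?_, taylor_fser p, ?_⟩
  · rw [eval_den]
    simp
  intro S hS
  have hex : ∀ n, ∃ PQ : MvPolynomial (Fin 2) ℂ × MvPolynomial (Fin 2) ℂ,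
      IsApproximant n (p + 1) (S n) (fser p) PQ.1 PQ.2 ∧
      (∀ t, 1 ≤ t → n = (p + 1) * t → ∃ I : ℕ, t ≤ I + 1 ∧ ∀ z : Fin 2 → ℂ, z 0 ≠ 0 → z 1 ≠ 0 →
        MvPolynomial.eval z PQ.2 ≠ 0 ∧ MvPolynomial.eval z PQ.1 / MvPolynomial.eval z PQ.2 =
          ∑ i ∈ Finset.range (I + 1), (z 0 ^ p * z 1) ^ i) := by
    intro n
    by_cases hn : ∃ t, 1 ≤ t ∧ n = (p + 1) * t
    · obtain ⟨t, ht, rfl⟩ := hn
      obtain ⟨P, Q, I, h1, h2, h3⟩ := partial_sum_approximant p t hp ht _ (hS _)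
      refine ⟨(P, Q), h1, ?_⟩
      intro t' _ htt
      have : t = t' := Nat.eq_of_mul_eq_mul_left (by omega) htt
      subst this
      exact ⟨I, h2, h3⟩
    · refine ⟨(1, den p), good_approximant n p hp _, ?_⟩
      intro t ht hnt
      exact absurd ⟨t, ht, hnt⟩ hn
  choose PQ hPQ hbad using hex
  -- the pointwise statement
  have key : ∀ z : Fin 2 → ℂ, 1 ≤ ‖z 0 ^ p * z 1‖ → MvPolynomial.eval z (den p) ≠ 0 →
      ∀ t : ℕ, 1 ≤ t → MvPolynomial.eval z (PQ ((p + 1) * t)).2 ≠ 0 ∧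
        ‖z 0 ^ p * z 1‖ ^ t / (1 + ‖z 0 ^ p * z 1‖) ≤
          ‖MvPolynomial.eval z (PQ ((p + 1) * t)).1 / MvPolynomial.eval z (PQ ((p + 1) * t)).2 -
            1 / MvPolynomial.eval z (den p)‖ := by
    intro z hz hG t ht
    have hz01 : z 0 ^ p * z 1 ≠ 0 := by
      intro h
      rw [h, norm_zero] at hz
      linarith
    have h0 : z 0 ≠ 0 := by
      intro h
      apply hz01
      rw [h, zero_pow (by omega), zero_mul]
    have h1 : z 1 ≠ 0 := right_ne_zero_of_mul hz01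
    obtain ⟨I, hI, hI2⟩ := hbad ((p + 1) * t) t ht rfl
    obtain ⟨hq, he⟩ := hI2 z h0 h1
    refine ⟨hq, ?_⟩
    rw [he, eval_den]
    rw [eval_den] at hG
    exact error_le _ hz hG t I hI
  have hnot : ∀ z : Fin 2 → ℂ, 1 ≤ ‖z 0 ^ p * z 1‖ → MvPolynomial.eval z (den p) ≠ 0 →
      ¬ Tendsto (fun n => MvPolynomial.eval z (PQ n).1 / MvPolynomial.eval z (PQ n).2) atTop
        (𝓝 (1 / MvPolynomial.eval z (den p))) := by
    intro z hz hG hlim
    rw [Metric.tendsto_atTop] at hlim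
    have hpos : 0 < 1 / (1 + ‖z 0 ^ p * z 1‖) := by positivity
    obtain ⟨N, hN⟩ := hlim _ hpos
    have h1 := hN ((p + 1) * (N + 1)) (by nlinarith)
    obtain ⟨-, h2⟩ := key z hz hG (N + 1) (by omega)
    rw [dist_eq_norm] at h1
    have h3 : 1 / (1 + ‖z 0 ^ p * z 1‖) ≤ ‖z 0 ^ p * z 1‖ ^ (N + 1) / (1 + ‖z 0 ^ p * z 1‖) :=
      div_le_div_of_nonneg_right (one_le_pow₀ hz) (by positivity)
    linarith
  refine ⟨fun n => (PQ n).1, fun n => (PQ n).2, hPQ, ?_, ?_⟩
  · intro hconv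
    set z₀ : Fin 2 → ℂ := fun _ => (2 : ℂ) with hz₀
    have hnz : ‖z₀ 0 ^ p * z₀ 1‖ = 2 ^ (p + 1) := by
      rw [hz₀, norm_mul, norm_pow, Complex.norm_ofNat, pow_succ]
    have hge : 1 ≤ ‖z₀ 0 ^ p * z₀ 1‖ := by
      rw [hnz]
      exact one_le_pow₀ (by norm_num)
    have hz₀mem : MvPolynomial.eval z₀ (den p) ≠ 0 := by
      rw [eval_den]
      intro h
      have h1 : z₀ 0 ^ p * z₀ 1 = 1 := (sub_eq_zero.mp h).symm
      rw [h1, norm_one] at hnz
      have : (1:ℝ) < 2 ^ (p + 1) := one_lt_pow₀ (by norm_num) (by omega)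
      linarith
    obtain ⟨-, hu⟩ := hconv {z₀} (by
      intro z hz
      rw [Set.mem_singleton_iff] at hz
      subst hz
      exact hz₀mem) isCompact_singleton
    exact hnot z₀ hge hz₀mem (hu.tendsto_at (Set.mem_singleton z₀))
  · intro z hz hG
    refine ⟨key z hz hG, hnot z hz hG, ?_⟩
    intro hz1
    have h1 : Tendsto (fun t : ℕ => ‖z 0 ^ p * z 1‖ ^ t / (1 + ‖z 0 ^ p * z 1‖) -
        ‖1 / MvPolynomial.eval z (den p)‖) atTop atTop := by
      have h2 := (tendsto_pow_atTop_atTop_of_one_lt hz1).atTop_div_const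
        (r := 1 + ‖z 0 ^ p * z 1‖) (by positivity)
      exact tendsto_atTop_add_const_right _ _ h2
    refine tendsto_atTop_mono' atTop ?_ h1
    filter_upwards [eventually_ge_atTop 1] with t ht
    obtain ⟨-, h3⟩ := key z hz hG t ht
    have h4 := norm_sub_le (MvPolynomial.eval z (PQ ((p + 1) * t)).1 /
      MvPolynomial.eval z (PQ ((p + 1) * t)).2) (1 / MvPolynomial.eval z (den p))
    linarith

end

end Pool.Agent.Results.MP_a75ade_an.PointwiseDivergence
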